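import Pool.Agent.MP_5f6c2d_pr.h95.Junction

/-! Orbits of states are walks along tricolor edges; the union bound at the uniform law. -/

set_option autoImplicit false

open MeasureTheory Set
open scoped ENNReal

namespace Pool.Agent.MP_5f6c2d_pr.H95

lemma i0_par (x : V) : (∀ i, Even (i0 x i)) ∨ ∀ i, Odd (i0 x i) := by
  rcases Int.emod_two_eq_zero_or_one (x.1 + x.2.1 + x.2.2) with h | h
  · left; intro i; rw [Int.even_iff]; fin_cases i <;> simp only [i0] <;> simp <;> omega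
  · right; intro i; rw [Int.odd_iff]; fin_cases i <;> simp only [i0] <;> simp <;> omega

lemma i0_nb : ∀ d ∈ nb, -d ∈ nb ∧ ((∃ i, (i0 d i = 2 ∨ i0 d i = -2) ∧ ∀ j, j ≠ i → i0 d j = 0) ∨
    ∀ i, i0 d i = 1 ∨ i0 d i = -1) := by decide +kernel

lemma adj_i0 {x y : V} (h : x - y ∈ nb) : Adj (i0 x) (i0 y) := by
  refine ⟨i0_par x, i0_par y, ?_⟩
  have := (i0_nb _ h).2
  simp only [i0_sub, Pi.sub_apply] at this
  rcases this with ⟨i, h1, h2⟩ | h1
  · exact Or.inl ⟨i, by omega, fun j hj => by have := h2 j hj; omega⟩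
  · exact Or.inr fun i => by have := h1 i; omega

lemma card_tri {g : St} (hg : Valid g) : (Finset.univ.image g).card = 3 := by
  rw [Finset.card_image_of_injective _ (valid_inj g hg)]; simp

lemma card_ch {g : St} (hg : Valid g) : (ch g).card = 4 := by
  have e : ch g = insert (ap g) (Finset.univ.image g) := by
    ext x; rw [mem_ch]; simp [eq_comm, or_comm]
  rw [e, Finset.card_insert_of_notMem, card_tri hg]
  simp only [Finset.mem_image, not_exists, not_and]
  exact fun c _ h => ap_ne g hg c h.symm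

lemma adj_ch {g : St} (hg : Valid g) :
    ∀ v ∈ (ch g).image i0, ∀ w ∈ (ch g).image i0, v ≠ w → Adj v w := by
  intro v hv w hw hne
  obtain ⟨x, hx, rfl⟩ := Finset.mem_image.1 hv
  obtain ⟨y, hy, rfl⟩ := Finset.mem_image.1 hw
  refine adj_i0 ?_
  rcases mem_ch.1 hx with ⟨a, rfl⟩ | rfl <;> rcases mem_ch.1 hy with ⟨b, rfl⟩ | rfl
  · exact sub_mem g hg a b fun e => hne (by rw [e])
  · simpa using (i0_nb _ (ap_sub_mem g hg a).1).1
  · exact (ap_sub_mem g hg b).1
  · exact absurd rfl hne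

lemma state_step {ω : W → Fin 3} {g : St} (hg : Good (ω ∘ i0) g) :
    Step ω ((ch g).image i0) ((ch (nxt (ω ∘ i0) g)).image i0) := by
  have hn := good_nxt hg
  have ne : ch g ≠ ch (nxt (ω ∘ i0) g) := fun e => by
    have := congrFun (ch_inj hg hn e) ((ω ∘ i0) (ap g))
    rw [nxt_ap] at this
    exact ap_ne g hg.1 _ this.symm
  have mem : ∀ c, nxt (ω ∘ i0) g c ∈ ch g ∩ ch (nxt (ω ∘ i0) g) := fun c => by
    refine Finset.mem_inter.2 ⟨mem_ch.2 ?_, mem_ch.2 (Or.inl ⟨c, rfl⟩)⟩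
    rcases nxt_cases (ω ∘ i0) g c with e | e
    exacts [Or.inr e, Or.inl ⟨c, e⟩]
  refine ⟨by rw [Finset.card_image_of_injective _ i0_inj, card_ch hg.1],
    by rw [Finset.card_image_of_injective _ i0_inj, card_ch hn.1],
    fun e => ne (Finset.image_injective i0_inj e), adj_ch hg.1, adj_ch hn.1, ?_, fun c => ?_⟩
  · rw [← Finset.image_inter _ _ i0_inj, Finset.card_image_of_injective _ i0_inj]
    refine le_antisymm (not_lt.1 fun h => ne ?_) ?_
    · exact (Finset.eq_of_subset_of_card_le Finset.inter_subset_left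
        ((card_ch hg.1).le.trans h)).symm.trans
        (Finset.eq_of_subset_of_card_le Finset.inter_subset_right ((card_ch hn.1).le.trans h))
    · exact (card_tri hn.1).ge.trans <| Finset.card_le_card fun x hx => by
        obtain ⟨c, _, rfl⟩ := Finset.mem_image.1 hx
        exact mem c
  · rw [← Finset.image_inter _ _ i0_inj]
    exact ⟨_, Finset.mem_image_of_mem _ (mem c), hn.2 c⟩

/-- An orbit from the box of size `n` to distance `N`. -/
def Arm (n N : ℤ) : Set Cf := {c | ∃ (f : St) (m : ℕ), 1 ≤ m ∧ Good c f ∧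
  (∃ j, ∀ i, |i0 (f j) i| ≤ n) ∧ ∃ j i, N ≤ |i0 (o c f m j) i|}

lemma meas_arm (n N : ℤ) : MeasurableSet (Arm n N) :=
  measurableSet_setOfPred.2 (Measurable.exists fun f => Measurable.exists fun m =>
    measurable_const.and ((meas_good f).and (measurable_const.and
      (meas_Q (fun g => ∃ j i, N ≤ |i0 (g j) i|) f m))))

lemma round {n : ℤ} (hn : 1 ≤ n) {P b : ℤ} (hb : -(n * P) ≤ b ∧ b ≤ n * P) :
    ∃ p ∈ Finset.Icc (-P) P, -n ≤ 2 * (b - n * p) ∧ 2 * (b - n * p) ≤ n := by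
  have h1 := Int.mul_ediv_add_emod (b + n / 2) n
  have h2 := Int.emod_nonneg (b + n / 2) (by omega : n ≠ 0)
  have h3 := Int.emod_lt_of_pos (b + n / 2) (by omega : 0 < n)
  refine ⟨(b + n / 2) / n, Finset.mem_Icc.2 ⟨?_, ?_⟩, by omega, by omega⟩
  · rw [Int.le_ediv_iff_mul_le (by omega)]
    have : 0 ≤ n / 2 := by omega
    nlinarith
  · rw [← Int.lt_add_one_iff, Int.ediv_lt_iff_lt_mul (by omega)]
    have : n / 2 < n := by omega
    nlinarith

lemma cover {n N P : ℤ} (hn : 1 ≤ n) (hN : 1 ≤ N) (hP : 2 * (N + n - 1) ≤ n * P) (c : Cf) :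
    ∃ a ∈ ({0, 1} : Finset (Fin 3)), ∃ u, ∃ p ∈ Finset.Icc (-P) P, ∃ q ∈ Finset.Icc (-P) P,
      sh (0, n * p, n * q) (tw c a u) ∈ Arm n N := by
  obtain ⟨a, ha, u, h⟩ := junction (R := N + n - 1) (by omega) c
  unfold Short at h
  push Not at h
  obtain ⟨f, hf, hg, m, i, j, hm⟩ := h
  obtain ⟨h1, hv, h0⟩ := mem_WS.1 hf
  have h2 := h1 j
  have h3 := h0 j
  simp only [box, Finset.mem_product, Finset.mem_Icc] at h2
  obtain ⟨p, hp, hp'⟩ := round hn (P := P) (b := (f j).2.1) (by omega)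
  obtain ⟨q, hq, hq'⟩ := round hn (P := P) (b := (f j).2.2) (by omega)
  refine ⟨a, ha, u, p, hp, q, hq, tr (-(0, n * p, n * q)) f, m, ?_, ?_, ⟨j, fun k => ?_⟩, i, ?_⟩
  · rcases m with _ | m
    · refine absurd ?_ hm
      by_cases e : i = j
      · simp only [e, Near, o_zero, sub_self, abs_zero]; omega
      · have := nb_bound _ (sub_mem f hv i j e)
        simp only [Near, o_zero, abs_le, Prod.fst_sub, Prod.snd_sub] at this ⊢
        omega
    · omega
  · rwa [← good_tr, tr_tr, neg_add_cancel, tr_zero]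
  · rw [abs_le]
    fin_cases k <;> simp [i0] <;> omega
  · have e := o_tr (tw c a u) (0, n * p, n * q) (tr (-(0, n * p, n * q)) f) m
    rw [tr_tr, neg_add_cancel, tr_zero] at e
    rw [e] at hm
    generalize o (sh (0, n * p, n * q) (tw c a u)) (tr (-(0, n * p, n * q)) f) m = g at hm ⊢
    by_contra hc
    push Not at hc
    have a0 := hc 0
    have a1 := hc 1
    have a2 := hc 2
    refine hm ?_
    simp only [i0, Matrix.cons_val, abs_lt] at a0 a1 a2
    simp only [Near, tr_apply, Prod.fst_add, Prod.snd_add, abs_le]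
    omega

lemma PP_tw {ν : Measure (Fin 3)} [IsProbabilityMeasure ν] (hν : ∀ k, ν.map (· + k) = ν)
    (a u : Fin 3) {A : Set Cf} (hA : MeasurableSet A) : PP V ν {c | tw c a u ∈ A} = PP V ν A := by
  have h := Measure.infinitePi_map_pi (fun _ : V => ν)
    (f := fun v x => x + ![0, a, u] (reg v)) (fun _ => measurable_of_countable _)
  simp only [hν] at h
  have hm : Measurable (fun (c : Cf) v => c v + ![0, a, u] (reg v)) :=
    measurable_pi_lambda _ fun v => (measurable_of_countable (· + _)).comp (measurable_pi_apply v)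
  conv_rhs => rw [PP, ← h, Measure.map_apply hm hA]
  rfl

lemma arm_ge {ν : Measure (Fin 3)} [IsProbabilityMeasure ν] (hν : ∀ k, ν.map (· + k) = ν)
    {n N : ℤ} {P : ℕ} (hn : 1 ≤ n) (hN : 1 ≤ N) (hP : 2 * (N + n - 1) ≤ n * P) :
    1 ≤ (6 * (2 * P + 1) ^ 2 : ℕ) * PP V ν (Arm n N) := by
  set I := ({0, 1} : Finset (Fin 3)) ×ˢ (Finset.univ : Finset (Fin 3)) ×ˢ
    Finset.Icc (-(P : ℤ)) P ×ˢ Finset.Icc (-(P : ℤ)) P with hI
  have hc : I.card = 6 * (2 * P + 1) ^ 2 := by
    have : ((P : ℤ) + 1 - -P).toNat = 2 * P + 1 := by omega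
    simp only [hI, Finset.card_product, Int.card_Icc, this, Finset.card_univ, Fintype.card_fin]
    rw [show ({0, 1} : Finset (Fin 3)).card = 2 from rfl]; ring
  have sub : (univ : Set Cf) ⊆ ⋃ x ∈ I,
      {c | tw c x.1 x.2.1 ∈ {c' | sh (0, n * x.2.2.1, n * x.2.2.2) c' ∈ Arm n N}} := by
    intro c _
    obtain ⟨a, ha, u, p, hp, q, hq, h⟩ := cover hn hN hP c
    exact mem_iUnion₂.2 ⟨(a, u, p, q), by simp only [hI, Finset.mem_product]; simp [*], h⟩
  rw [← measure_univ (μ := PP V ν), ← hc, ← nsmul_eq_mul, ← Finset.sum_const]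
  refine (measure_mono sub).trans ((measure_biUnion_finset_le _ _).trans
    (le_of_eq (Finset.sum_congr rfl fun x _ => ?_)))
  exact (PP_tw hν _ _ (meas_comp _ (meas_arm n N))).trans (PP_sh _ (meas_arm n N))

end Pool.Agent.MP_5f6c2d_pr.H95
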