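import Pool.Agent.MP_5f6c2d_pr.Null

/-! Triple junction: shift the colours by constants on three regions meeting along a line.
One of six such colourings has a long tricolor path through a square across the line. -/

set_option autoImplicit false

namespace Pool.Agent.MP_5f6c2d_pr.H95

open Finset

def rot (k : Fin 3) (f : St) : St := fun i => f (i - k)

lemma rot_rot (k : Fin 3) (f : St) : rot (-k) (rot k f) = f := by funext i; simp [rot]
lemma rot_rot' (k : Fin 3) (f : St) : rot k (rot (-k) f) = f := by funext i; simp [rot]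

lemma rot_facts (f : St) (hf : Valid f) (k : Fin 3) : Valid (rot k f) ∧ ap (rot k f) = ap f := by
  revert k
  refine local_ind (fun f => ∀ k, Valid (rot k f) ∧ ap (rot k f) = ap f) ?_ (by decide +kernel) f hf
  intro w f h k
  have e : rot k (tr w f) = tr w (rot k f) := rfl
  rw [e, valid_tr, ap_tr, ap_tr, (h k).2]
  exact ⟨(h k).1, rfl⟩

def pl (c : Cf) (k : Fin 3) : Cf := fun v => c v + k

lemma pl_pl (c : Cf) (k : Fin 3) : pl (pl c k) (-k) = c := by funext v; simp [pl]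

lemma nxt_rot (c : Cf) (k : Fin 3) {f : St} (hf : Valid f) :
    nxt (pl c k) (rot k f) = rot k (nxt c f) := by
  unfold nxt
  rw [(rot_facts f hf k).2]
  funext i
  by_cases h : i = pl c k (ap f)
  · subst h; simp [rot, pl]
  · rw [Function.update_of_ne h]
    unfold rot
    rw [Function.update_of_ne]
    intro e
    exact h (by rw [pl, ← e, sub_add_cancel])

lemma o_rot (c : Cf) (k : Fin 3) {f : St} (hf : Valid f) (n : ℕ) :
    o (pl c k) (rot k f) n = rot k (o c f n) := by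
  induction n with
  | zero => rfl
  | succ n ih => rw [o_succ, o_succ, ih, nxt_rot c k (valid_o hf n)]

lemma good_rot {c : Cf} {f : St} (k : Fin 3) (h : Good c f) : Good (pl c k) (rot k f) :=
  ⟨(rot_facts f h.1 k).1, fun i => by simp [pl, rot, h.2]⟩

/-- The orbit stays in `Z`. -/
def Stay (Z : Finset V) (c : Cf) (f : St) : Prop := Good c f ∧ ∀ n i, o c f n i ∈ Z

open Classical in
noncomputable def wt (Z : Finset V) (c : Cf) (f : St) : ℤ := if Stay Z c f then (ap f).1 else 0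

/-- States in the wall. -/
def WS (Z : Finset V) : Finset St :=
  (Fintype.piFinset fun _ => Z).filter (fun f => Valid f ∧ ∀ i, (f i).1 = 0)

lemma mem_WS {Z : Finset V} {f : St} : f ∈ WS Z ↔ (∀ i, f i ∈ Z) ∧ Valid f ∧ ∀ i, (f i).1 = 0 := by
  simp [WS]

lemma rot_WS {Z : Finset V} {f : St} (k : Fin 3) (h : f ∈ WS Z) : rot k f ∈ WS Z := by
  rw [mem_WS] at h ⊢
  exact ⟨fun i => h.1 _, (rot_facts f h.2.1 k).1, fun i => h.2.2 _⟩

lemma stay_rot {Z : Finset V} {c : Cf} {f : St} (k : Fin 3) (h : Stay Z c f) :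
    Stay Z (pl c k) (rot k f) :=
  ⟨good_rot k h.1, fun n i => by rw [o_rot c k h.1.1]; exact h.2 n _⟩

lemma wt_rot {Z : Finset V} (c : Cf) {f : St} (k : Fin 3) (hf : Valid f) :
    wt Z (pl c k) (rot k f) = wt Z c f := by
  have : Stay Z (pl c k) (rot k f) ↔ Stay Z c f :=
    ⟨fun h => by simpa [pl_pl, rot_rot] using stay_rot (-k) h, stay_rot k⟩
  unfold wt
  rw [this, (rot_facts f hf k).2]

def up (f : St) (x : V) : ℤ := if (∀ i, 0 ≤ (f i).1) ∧ 0 ≤ x.1 then 1 else 0

lemma up_nxt (c : Cf) {f : St} (hf : Valid f) : up (nxt c f) (am (nxt c f)) = up f (ap f) := by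
  rw [am_nxt hf]
  unfold up
  refine if_congr ⟨fun h => ⟨fun i => ?_, ?_⟩, fun h => ⟨fun i => ?_, h.1 _⟩⟩ rfl rfl
  · by_cases e : i = c (ap f)
    · exact e ▸ h.2
    · have := h.1 i
      rwa [nxt, Function.update_of_ne e] at this
  · have := h.1 (c (ap f))
    rwa [nxt_ap] at this
  · rcases nxt_cases c f i with e | e <;> rw [e]
    exacts [h.2, h.1 i]

lemma up_diff {f : St} (hf : Valid f) :
    up f (ap f) - up f (am f) = if ∀ i, (f i).1 = 0 then (ap f).1 else 0 := by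
  have b : ∀ i, (ap f).1 ≤ (f i).1 + 1 ∧ (f i).1 ≤ (ap f).1 + 1 ∧ (f i).1 ≤ (am f).1 + 1 := by
    intro i
    have h1 := nb_bound _ (ap_sub_mem f hf i).1
    have h2 := nb_bound _ (ap_sub_mem f hf i).2
    simp only [Prod.fst_sub] at h1 h2
    omega
  have b0 := b 0
  have b1 := b 1
  have b2 := b 2
  have hw := wall f hf
  simp only [up, Fin.forall_fin_succ, IsEmpty.forall_iff, and_true, Fin.succ_zero_eq_one,
    Fin.succ_one_eq_two]
  split_ifs <;> omega

/-- Closed loops cross the wall as often upwards as downwards. -/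
lemma neutral (Z : Finset V) (c : Cf) : ∑ f ∈ WS Z, wt Z c f = 0 := by
  classical
  set F := (Fintype.piFinset fun _ : Fin 3 => Z).filter (Stay Z c) with hF
  have mem : ∀ f, f ∈ F ↔ Stay Z c f := fun f => by
    simp only [hF, mem_filter, Fintype.mem_piFinset, and_iff_right_iff_imp]
    exact fun h i => h.2 0 i
  have inj : Set.InjOn (nxt c) F := fun f hf g hg e =>
    nxt_inj ((mem f).1 hf).1 ((mem g).1 hg).1 e
  have im : F.image (nxt c) = F := by
    refine eq_of_subset_of_card_le (fun g hg => ?_) (card_image_of_injOn inj).ge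
    obtain ⟨f, hf, rfl⟩ := mem_image.1 hg
    rw [mem] at hf ⊢
    exact ⟨good_nxt hf.1, fun n i => by rw [← o_succ']; exact hf.2 _ i⟩
  have h1 : ∑ f ∈ F, up f (am f) = ∑ f ∈ F, up f (ap f) := by
    conv_lhs => rw [← im, sum_image inj]
    exact sum_congr rfl fun f hf => up_nxt c ((mem f).1 hf).1.1
  have h2 : ∑ f ∈ F, (if ∀ i, (f i).1 = 0 then (ap f).1 else 0) = 0 := by
    refine Eq.trans ?_ (sub_eq_zero.2 h1.symm)
    rw [← sum_sub_distrib]
    exact sum_congr rfl fun f hf => (up_diff ((mem f).1 hf).1.1).symm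
  rw [← h2, hF, WS, sum_filter, sum_filter]
  refine sum_congr rfl fun f _ => ?_
  unfold wt
  by_cases hs : Stay Z c f <;> simp [hs]
  simp [hs.1.1]

def Near (R : ℤ) (x y : V) : Prop :=
  |x.1 - y.1| ≤ R ∧ |x.2.1 - y.2.1| ≤ R ∧ |x.2.2 - y.2.2| ≤ R

def Short (Z : Finset V) (R : ℤ) (c : Cf) : Prop :=
  ∀ f ∈ WS Z, Good c f → ∀ n i j, Near R (o c f n i) (f j)

def Inner (Z : Finset V) (R : ℤ) (f : St) : Prop := ∀ v, (∀ j, Near R v (f j)) → v ∈ Z

def reg (v : V) : Fin 3 := if 1 ≤ v.2.2 then 2 else if 1 ≤ v.2.1 then 1 else 0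

def Miss (Z : Finset V) (R : ℤ) (j : Fin 3) (f : St) : Prop :=
  (Inner Z R f ∧ ∀ i, reg (f i) ≠ j) ∨ ∀ v, (∀ i, Near R v (f i)) → reg v ≠ j

lemma short_pl {Z : Finset V} {R : ℤ} {c : Cf} (k : Fin 3) (h : Short Z R c) :
    Short Z R (pl c k) := by
  intro f hf hg n i j
  have h1 := good_rot (-k) hg
  rw [pl_pl] at h1
  have h2 := h _ (rot_WS (-k) hf) h1 n (i - k) (j - k)
  have h3 := o_rot c k h1.1 n
  rw [rot_rot'] at h3
  rw [h3]
  simpa [rot] using h2

lemma miss_rot {Z : Finset V} {R : ℤ} {j : Fin 3} {f : St} (k : Fin 3) (h : Miss Z R j f) :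
    Miss Z R j (rot k f) := by
  have e : ∀ v, (∀ i, Near R v (rot k f i)) → ∀ i, Near R v (f i) := fun v hv i => by
    simpa [rot] using hv (i + k)
  rcases h with h | h
  · exact Or.inl ⟨fun v hv => h.1 v (e v hv), fun i => h.2 _⟩
  · exact Or.inr fun v hv => h v (e v hv)

lemma stay_local {Z : Finset V} {R : ℤ} {j : Fin 3} {c c' : Cf} {f : St} (hc : Short Z R c)
    (hc' : Short Z R c') (hf : f ∈ WS Z) (hm : Miss Z R j f) (h : ∀ v, reg v ≠ j → c' v = c v)
    (hs : Stay Z c f) : Stay Z c' f := by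
  have hn := hc f hf hs.1
  rcases hm with hm | hm
  · have hg : Good c' f := ⟨hs.1.1, fun i => by rw [h _ (hm.2 i), hs.1.2]⟩
    exact ⟨hg, fun n i => hm.1 _ (hc' f hf hg n i)⟩
  · refine ⟨⟨hs.1.1, fun i => (h _ (hm _ (hn 0 i))).trans (hs.1.2 i)⟩, fun n i => ?_⟩
    rw [o_congr (ω := c) n (fun k _ => h _ (hm _ fun i => ?_)) n le_rfl]
    · exact hs.2 n i
    · have := hn (k + 1) (c (ap (o c f k))) i
      rwa [o_succ, nxt_ap] at this

lemma wt_local {Z : Finset V} {R : ℤ} {j : Fin 3} {c c' : Cf} {f : St} (hc : Short Z R c)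
    (hc' : Short Z R c') (hf : f ∈ WS Z) (hm : Miss Z R j f) (h : ∀ v, reg v ≠ j → c' v = c v) :
    wt Z c' f = wt Z c f := by
  have : Stay Z c' f ↔ Stay Z c f :=
    ⟨stay_local hc' hc hf hm fun v hv => (h v hv).symm, stay_local hc hc' hf hm h⟩
  unfold wt
  rw [this]

noncomputable def box (R : ℤ) : Finset V := Icc (-R) R ×ˢ Icc (-(2 * R)) (2 * R) ×ˢ Icc (-(2 * R)) (2 * R)

def T3 : Finset V := {(0, 0, 0), (0, 1, 0), (0, 1, 1)}

def S6 : Finset St := (Fintype.piFinset fun _ => T3).filter Valid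

lemma nb_sign : ∀ d ∈ nb, ¬ (d.2.1 = 1 ∧ d.2.2 = -1) ∧ ¬ (d.2.1 = -1 ∧ d.2.2 = 1) := by
  decide +kernel

lemma geom {R : ℤ} {f : St} (hf : f ∈ WS (box R)) (h6 : f ∉ S6) : ∃ j, Miss (box R) R j f := by
  obtain ⟨-, hv, h0⟩ := mem_WS.1 hf
  by_cases hi : Inner (box R) R f
  · by_contra hn
    have ex : ∀ j, ∃ i, reg (f i) = j := fun j => by
      by_contra h
      exact hn ⟨j, Or.inl ⟨hi, fun i e => h ⟨i, e⟩⟩⟩
    obtain ⟨a, ha⟩ := ex 0
    obtain ⟨b, hb⟩ := ex 1
    obtain ⟨d, hd⟩ := ex 2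
    have ab : a ≠ b := fun e => by rw [e, hb] at ha; exact absurd ha (by decide)
    have ad : a ≠ d := fun e => by rw [e, hd] at ha; exact absurd ha (by decide)
    have bd : b ≠ d := fun e => by rw [e, hd] at hb; exact absurd hb (by decide)
    have p1 := nb_bound _ (sub_mem f hv a b ab)
    have p2 := nb_bound _ (sub_mem f hv a d ad)
    have p3 := nb_bound _ (sub_mem f hv b d bd)
    have p4 := nb_sign _ (sub_mem f hv b d bd)
    have q1 : (f a).2.2 ≤ 0 ∧ (f a).2.1 ≤ 0 := by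
      unfold reg at ha; split_ifs at ha <;> omega
    have q2 : (f b).2.2 ≤ 0 ∧ 1 ≤ (f b).2.1 := by
      unfold reg at hb; split_ifs at hb <;> omega
    have q3 : 1 ≤ (f d).2.2 := by
      unfold reg at hd; split_ifs at hd <;> omega
    simp only [Prod.snd_sub, Prod.fst_sub] at p1 p2 p3 p4
    have cover : ∀ a b d i : Fin 3, a ≠ b → a ≠ d → b ≠ d → i = a ∨ i = b ∨ i = d := by decide
    refine h6 (mem_filter.2 ⟨Fintype.mem_piFinset.2 fun i => ?_, hv⟩)
    have := h0 i
    simp only [T3, mem_insert, mem_singleton, Prod.ext_iff]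
    rcases cover a b d i ab ad bd with e | e | e <;> rw [e] at this ⊢ <;> omega
  · unfold Inner at hi
    push Not at hi
    obtain ⟨v, hv, hz⟩ := hi
    have h1 := hv 0
    have h2 := h0 0
    simp only [box, mem_product, mem_Icc, Near, abs_le] at hz h1
    have key : ∀ j, (∀ x : V, -R ≤ x.2.1 - (f 0).2.1 ∧ x.2.1 - (f 0).2.1 ≤ R →
        -R ≤ x.2.2 - (f 0).2.2 ∧ x.2.2 - (f 0).2.2 ≤ R → reg x ≠ j) → ∃ j, Miss (box R) R j f :=
      fun j h => ⟨j, Or.inr fun x hx => h x (abs_le.1 (hx 0).2.1) (abs_le.1 (hx 0).2.2)⟩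
    by_cases c1 : R < (f 0).2.1 ∨ R < (f 0).2.2
    · refine key 0 fun x a b => ?_
      unfold reg; split_ifs <;> omega
    by_cases c2 : (f 0).2.1 < -R
    · refine key 1 fun x a b => ?_
      unfold reg; split_ifs <;> omega
    · refine key 2 fun x a b => ?_
      unfold reg; split_ifs <;> omega

def tw (c : Cf) (a u : Fin 3) : Cf := fun v => c v + ![0, a, u] (reg v)

def w0 (c : Cf) (f : St) : ℤ := if ∀ i, c (f i) = i then (ap f).1 else 0

def cc (x y z : Fin 3) : Cf := fun v => ![x, y, z] (reg v)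

lemma star : ∀ x y z : Fin 3,
    ¬ (3 : ℤ) ∣ ∑ f ∈ S6, ∑ u, (w0 (tw (cc x y z) 1 u) f - w0 (tw (cc x y z) 0 u) f) := by
  decide +kernel

lemma S6_rot : ∀ f ∈ S6, ∀ k, rot k f ∈ S6 := by decide +kernel

lemma S6_wt {R : ℤ} (hR : 1 ≤ R) {f : St} (hf : f ∈ S6) : f ∈ WS (box R) ∧
    ∀ c a u, Short (box R) R (tw c a u) → wt (box R) (tw c a u) f =
      w0 (tw (cc (c (0, 0, 0)) (c (0, 1, 0)) (c (0, 1, 1))) a u) f := by
  obtain ⟨h1, hv⟩ := mem_filter.1 hf
  rw [Fintype.mem_piFinset] at h1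
  have h2 : ∀ i, (f i).1 = 0 ∧ 0 ≤ (f i).2.1 ∧ (f i).2.1 ≤ 1 ∧ 0 ≤ (f i).2.2 ∧ (f i).2.2 ≤ 1 := by
    intro i
    have := h1 i
    simp only [T3, mem_insert, mem_singleton, Prod.ext_iff] at this
    omega
  have hW : f ∈ WS (box R) := mem_WS.2 ⟨fun i => by
    have := h2 i
    simp only [box, mem_product, mem_Icc]; omega, hv, fun i => (h2 i).1⟩
  refine ⟨hW, fun c a u hs => ?_⟩
  have e : ∀ i, cc (c (0, 0, 0)) (c (0, 1, 0)) (c (0, 1, 1)) (f i) = c (f i) := by
    intro i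
    have := h1 i
    simp only [T3, mem_insert, mem_singleton] at this
    rcases this with h | h | h <;> rw [h] <;> rfl
  classical
  unfold wt w0
  refine if_congr ?_ rfl rfl
  simp only [tw, e]
  refine ⟨fun h => h.1.2, fun h => ⟨⟨hv, h⟩, fun n i => ?_⟩⟩
  have h3 := hs f hW ⟨hv, h⟩ n i 0
  have := h2 0
  simp only [box, mem_product, mem_Icc, Near, abs_le] at h3 ⊢
  omega

theorem junction {R : ℤ} (hR : 1 ≤ R) (c : Cf) :
    ∃ a ∈ ({0, 1} : Finset (Fin 3)), ∃ u, ¬ Short (box R) R (tw c a u) := by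
  classical
  by_contra hn
  push Not at hn
  have s0 := hn 0 (by decide)
  have s1 := hn 1 (by decide)
  set Z := box R
  set D : St → ℤ := fun f => ∑ u, (wt Z (tw c 1 u) f - wt Z (tw c 0 u) f) with hD
  have tot : ∑ f ∈ WS Z, D f = 0 := by
    rw [sum_comm]
    simp only [sum_sub_distrib, neutral, sub_self, sum_const_zero]
  have sub : S6 ⊆ WS Z := fun f hf => (S6_wt hR hf).1
  set A := (WS Z \ S6).filter (Miss Z R 0) with hA
  have rA : ∀ k, ∀ f ∈ A, rot k f ∈ A := by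
    intro k f hf
    simp only [hA, mem_filter, mem_sdiff] at hf ⊢
    exact ⟨⟨rot_WS k hf.1.1, fun h => hf.1.2 (rot_rot k f ▸ S6_rot _ h _)⟩, miss_rot k hf.2⟩
  have wA : ∀ f ∈ A, f ∈ WS Z := fun f hf => (mem_sdiff.1 (mem_filter.1 hf).1).1
  have hA0 : ∑ f ∈ A, D f = 0 := by
    rw [sum_comm]
    simp only [sum_sub_distrib]
    rw [sub_eq_zero, ← Equiv.sum_comp (Equiv.addRight (1 : Fin 3))]
    refine sum_congr rfl fun u _ => ?_
    refine (sum_nbij' (rot 1) (rot (-1)) (rA 1) (rA (-1)) (fun f _ => rot_rot 1 f)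
      (fun f _ => rot_rot' 1 f) fun f hf => ?_).symm
    rw [← wt_rot (tw c 0 u) 1 (mem_WS.1 (wA f hf)).2.1]
    refine wt_local (s1 _) (short_pl 1 (s0 u)) (wA _ (rA 1 f hf)) (mem_filter.1 (rA 1 f hf)).2
      fun v hv => ?_
    simp only [pl, tw, Equiv.coe_addRight, add_assoc]
    generalize reg v = j at hv
    fin_cases j
    · exact absurd rfl hv
    · rfl
    · rfl
  have hB : (3 : ℤ) ∣ ∑ f ∈ (WS Z \ S6).filter (fun f => ¬ Miss Z R 0 f), D f := by
    refine dvd_sum fun f hf => ?_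
    obtain ⟨h1, h2⟩ := mem_filter.1 hf
    obtain ⟨h3, h4⟩ := mem_sdiff.1 h1
    obtain ⟨j, hj⟩ := geom h3 h4
    fin_cases j
    · exact absurd hj h2
    · have : D f = 0 := sum_eq_zero fun u _ => sub_eq_zero.2
        (wt_local (s0 u) (s1 u) h3 hj fun v hv => by
          simp only [tw]
          generalize reg v = j at hv
          fin_cases j
          · rfl
          · exact absurd rfl hv
          · rfl)
      rw [this]; exact dvd_zero _
    · have e : ∀ a u, Short Z R (tw c a u) → Short Z R (tw c a 0) →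
          wt Z (tw c a u) f = wt Z (tw c a 0) f := fun a u h h' =>
        wt_local h' h h3 hj fun v hv => by
          simp only [tw]
          generalize reg v = j at hv
          fin_cases j
          · rfl
          · rfl
          · exact absurd rfl hv
      refine ⟨wt Z (tw c 1 0) f - wt Z (tw c 0 0) f, ?_⟩
      rw [hD]
      simp only [Fin.sum_univ_three, e 1 _ (s1 _) (s1 0), e 0 _ (s0 _) (s0 0)]
      ring
  rw [← sum_sdiff sub, ← sum_filter_add_sum_filter_not _ (Miss Z R 0), hA0, zero_add] at tot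
  refine star (c (0, 0, 0)) (c (0, 1, 0)) (c (0, 1, 1)) ?_
  have e : ∑ f ∈ S6, D f = _ := sum_congr rfl fun f hf => sum_congr rfl fun u _ => by
    rw [(S6_wt hR hf).2 c 1 u (s1 u), (S6_wt hR hf).2 c 0 u (s0 u)]
  rw [← e, eq_neg_of_add_eq_zero_right tot]
  exact hB.neg_right

end Pool.Agent.MP_5f6c2d_pr.H95
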